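import Pool.Agent.U536.CF.TU
import Pool.Agent.Results.MP_4aec10_nt.MultiplicativeValues

/-!
# Translates of every point of the Lie algebra of `(E × G_m)^n` by logarithms of integers with large common factors with the values of multiplicative functions

Let `F_1, ..., F_n` be positive multiplicative functions of at most polynomial growth such that `F_i p ≤ M p` for the
large primes `p`, with different values at different large primes; for example Euler's function or the sum of the
divisors. Let `b < 1` and `0 ≤ c < 2 b - 1`. Let `Λ` be a lattice with rational invariants, `q`, `δ`, `d` natural numbers,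
`(z, s)` any point of `ℂⁿ × ℂⁿ` and `x_1, …, x_q` any complex numbers. For all tuples `m` in `[1, N]^n` but `N^n exp
(-(log N)^c)`, for EVERY tuple `w` of integers `w_i ≥ exp ((log N)^b)` such that `gcd(w_i, F_i(m_i)) ≥ w_j^ρ` for all `i`,
`j`, for ALL signs all translates of `(z, s)` by logarithms of the points `((α_i, β_i), α_i)`, `α_i = ± w_i`, are free
over their image and the constants `x_1, …, x_q`; `ρ < 1` depends only on `Λ`, `n`, `q`, `δ`, `d`, and the bound `N ≥ N₀`
does not depend on `(z, s)` and `x`. The tuples `w` include all tuples of large divisors `w_i` of the `F_i(m_i)` of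
comparable size and their multiples by small integers.

Proof. But for few exceptional `m_i ≤ N`, the number of `m_i` with `g ∣ F_i(m_i)` is at most `N τ_J(g) / g` up to a factor
`exp ((log N)^s)`, `J = (log N)^a`, `a < s < b`, for all `g`: write `m_i = k u` with `u` squarefree and composed of primes
larger than `N^(1/J)`, `k ≤ exp (4 (log N)^a)`. If `w` is an exceptional tuple with `w_i ≤ X`, then the `g_i = gcd(w_i,
F_i(m_i))` are divisors of the `w_i` of size `≥ (X/2)^ρ`; there are few such tuples of divisors, and the inequality `τ_J^q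
≤ τ_K` for `K ≥ J^q` with Hölder's inequality for tuples bounds the sum of `∏ τ_J(g_i) / g_i`. The file
`MultiplicativeValues` of the starting library treats the tuples `w = (F_i(m_i))` only, with `N^k / (log N)^U` exceptions.
-/

set_option autoImplicit false

namespace Pool.Agent.Results.MP_4aec10_nt.CommonFactors

open scoped PeriodPair
open Pool.Agent.Results.MP_4aec10_nt.SemiabelianTranslates (integers IsTranslate FreeOverImage)
open Pool.Agent.N733.TG (LM lm_totient lm_sigma)
open Pool.Agent.U536.CF (CommonT avoidT commonT_of_dvd exists_rho)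
open Pool.Agent.Results.MP_4aec10_nt.MultiplicativeValues (integers_one card_integers)

/-- **Translates of every point of the Lie algebra of `(E × G_m)^n` by logarithms of integers with large common factors with
the values of multiplicative functions.** Let `Λ` be a lattice with rational invariants, `q`, `δ`, `d` natural numbers,
`(z, s)` any point of `ℂⁿ × ℂⁿ` and `x_1, …, x_q` any complex numbers. Let the `F_i` be multiplicative and positive, of at
most polynomial growth, with `F_i p ≤ M p` at the large primes, and injective there. Let `b < 1` and `0 ≤ c < 2 b - 1`.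
For all large `N`, for all tuples `m` in `[1, N]^n` but `N^n exp (-(log N)^c)`, for EVERY tuple `w` of integers `w_i ≥ exp
((log N)^b)` with `gcd(w_i, F_i(m_i)) ≥ w_j^ρ` for all `i`, `j`, for ALL signs all translates of `(z, s)` by logarithms of
the points `((α_i, β_i), α_i)`, `α_i = ± w_i`, are free over their image and the constants `x_1, …, x_q`; `ρ < 1` depends
only on `Λ`, `n`, `q`, `δ`, `d`, and the bound `N ≥ N₀` does not depend on `(z, s)` and `x`. Tuples of divisors `w_i ≥ exp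
((log N)^b)` of the `F_i(m_i)` with `w_j^ρ ≤ w_i` for all `i`, `j` are such tuples. Euler's function and the sum of the
divisors are examples of the `F_i`. -/
theorem result :
    (∀ (Λ : PeriodPair) (g g' : ℚ), Λ.g₂ = g → Λ.g₃ = g' → ∀ n : ℕ, 1 ≤ n → ∀ q δ d : ℕ,
      ∃ ρ : ℝ, 0 < ρ ∧ ρ < 1 ∧ ∀ F : Fin n → ℕ → ℕ, (∀ i, LM (F i)) → ∀ b c : ℝ, b < 1 → 0 ≤ c → c < 2 * b - 1 →
      ∃ N₀ : ℕ, ∀ N : ℕ, N₀ ≤ N → ∀ (x : Fin q → ℂ) (z s : Fin n → ℂ),
      ({m : Fin n → ℕ | (∀ i, 1 ≤ m i ∧ m i ≤ N) ∧ ¬ ∀ w : Fin n → ℕ, CommonT F b ρ N m w →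
        ∀ α : Fin n → ℤ, (∀ i, |α i| = w i) → ∀ u t : Fin n → ℂ,
          IsTranslate Λ z s (fun i => (α i : ℂ)) u t → FreeOverImage Λ δ d x u t}.ncard : ℝ) ≤
        (N : ℝ) ^ n * Real.exp (-(Real.log N ^ c))) ∧
    (LM Nat.totient ∧ LM (fun m => ∑ d ∈ m.divisors, d)) ∧
    ∀ (k : ℕ) (F : Fin k → ℕ → ℕ) (b ρ : ℝ) (N : ℕ) (m w : Fin k → ℕ), (∀ i, Real.exp (Real.log N ^ b) ≤ (w i : ℝ)) →
      (∀ i, w i ∣ F i (m i)) → (∀ i j, (w j : ℝ) ^ ρ ≤ (w i : ℝ)) → CommonT F b ρ N m w := by
  refine ⟨?_, ⟨lm_totient, lm_sigma⟩, fun k F b ρ N m w h1 h2 h3 => commonT_of_dvd h1 h2 h3⟩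
  classical
  intro Λ a b ha hb k hk q δ d
  obtain ⟨c, hc, C, hcount⟩ :=
    Pool.Agent.Results.MP_4aec10_nt.SemiabelianTranslates.result Λ a b ha hb k q 1 le_rfl δ d
  obtain ⟨ρ, hρ0, hρ1, hρ⟩ := exists_rho hk hc
  refine ⟨ρ, hρ0, hρ1, fun F hF b₁ c₁ hb₁ hc₁ hcb => ?_⟩
  obtain ⟨N₀, hN₀⟩ := avoidT hk hF hρ0 hρ1.le hρ (|C| * 3 ^ k) hb₁ hc₁ hcb
  refine ⟨N₀, fun N hN w z s => ?_⟩
  obtain ⟨Bad, hBad⟩ : ∃ Bad : (Fin k → ℤ) → Prop, Bad = fun α => ¬ ∀ u t : Fin k → ℂ,
      IsTranslate Λ z s (fun i => (α i : ℂ)) u t → FreeOverImage Λ δ d w u t := ⟨_, rfl⟩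
  refine le_trans ?_ (hN₀ N hN {v : Fin k → ℕ | ∃ α : Fin k → ℤ, (∀ i, |α i| = v i) ∧ Bad α} fun X hX => ?_)
  · have hfin : {m : Fin k → ℕ | (∀ i, 1 ≤ m i ∧ m i ≤ N) ∧
        ∃ x ∈ {v : Fin k → ℕ | ∃ α : Fin k → ℤ, (∀ i, |α i| = v i) ∧ Bad α}, CommonT F b₁ ρ N m x}.Finite := by
      apply (Set.Finite.pi' fun _ : Fin k => Set.finite_Icc 1 N).subset
      intro m hm i
      exact hm.1 i
    refine Nat.cast_le.2 (Set.ncard_le_ncard ?_ hfin)
    rintro m ⟨h3, h4⟩
    refine ⟨h3, ?_⟩
    by_contra hcon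
    apply h4
    intro v hv α hα
    by_contra hE
    exact hcon ⟨v, ⟨α, hα, by rw [hBad]; exact hE⟩, hv⟩
  · -- the exceptional tuples of natural numbers
    have hX1 : (1 : ℝ) ≤ X := by exact_mod_cast hX
    have hX0 : (0 : ℝ) < X := by linarith
    obtain ⟨hI, h1⟩ := hcount w z s X hX
    choose! g hg1 hg2 using fun (v : Fin k → ℕ) (hv : v ∈
      {v : Fin k → ℕ | ∃ α : Fin k → ℤ, (∀ i, |α i| = v i) ∧ Bad α}) => hv
    have hfinα : {α : Fin k → ℂ | (∀ i, α i ∈ integers 1 X) ∧
        ¬ ∀ u t : Fin k → ℂ, IsTranslate Λ z s α u t → FreeOverImage Λ δ d w u t}.Finite := by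
      apply (Set.Finite.pi' fun _ : Fin k => hI).subset
      intro α hα i
      exact hα.1 i
    have h2 : {v : Fin k → ℕ | (∀ i, 2 ≤ v i ∧ v i ≤ X) ∧ v ∈
        {v : Fin k → ℕ | ∃ α : Fin k → ℤ, (∀ i, |α i| = v i) ∧ Bad α}}.ncard ≤
        {α : Fin k → ℂ | (∀ i, α i ∈ integers 1 X) ∧
        ¬ ∀ u t : Fin k → ℂ, IsTranslate Λ z s α u t → FreeOverImage Λ δ d w u t}.ncard := by
      refine Set.ncard_le_ncard_of_injOn (fun v i => ((g v i : ℤ) : ℂ)) ?_ ?_ hfinα
      · rintro v ⟨hv1, hv2⟩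
        refine ⟨fun i => integers_one ?_, ?_⟩
        · rw [hg1 v hv2 i]
          exact_mod_cast (hv1 i).2
        · have := hg2 v hv2
          rw [hBad] at this
          exact this
      · intro v hv v' hv' h
        funext i
        have h3 : g v i = g v' i := by
          have h0 : ((g v i : ℤ) : ℂ) = ((g v' i : ℤ) : ℂ) := congr_fun h i
          exact_mod_cast h0
        have h4 := hg1 v hv.2 i
        have h5 := hg1 v' hv'.2 i
        rw [h3, h5] at h4
        exact_mod_cast h4.symm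
    have h3 : (((integers 1 X).ncard : ℝ)) ^ k ≤ (3 * X) ^ k := by
      gcongr
      exact card_integers X hX
    calc _ ≤ (({α : Fin k → ℂ | (∀ i, α i ∈ integers 1 X) ∧
        ¬ ∀ u t : Fin k → ℂ, IsTranslate Λ z s α u t → FreeOverImage Λ δ d w u t}.ncard : ℕ) : ℝ) := by
          exact_mod_cast h2
      _ ≤ C * (X : ℝ) ^ (-c) * ((integers 1 X).ncard : ℝ) ^ k := h1
      _ ≤ |C| * (X : ℝ) ^ (-c) * (3 * X) ^ k := by
          have := le_abs_self C
          gcongr
      _ = |C| * 3 ^ k * ((X : ℝ) ^ (k : ℝ) * (X : ℝ) ^ (-c)) := by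
          rw [Real.rpow_natCast]
          ring
      _ = |C| * 3 ^ k * (X : ℝ) ^ ((k : ℝ) - c) := by
          rw [← Real.rpow_add hX0, sub_eq_add_neg]

end Pool.Agent.Results.MP_4aec10_nt.CommonFactors
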