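import Pool.Agent.U449.BV.VU
import Pool.Agent.Results.MP_4aec10_nt.SemiabelianTranslates

/-!
# Translates of every point of the Lie algebra of `(E × G_m)^n` by logarithms of points near the coordinates of polynomials on
# arbitrary sets

Let `E` be the elliptic curve `y² = 4 x³ - g₂ x - g₃` with rational `g₂`, `g₃`, and `G = (E × G_m)^n`. There is `c > 0` such that the
following holds for `κ ≥ 0`, `n - c + n κ < δ ≤ n`. Let `p` be a large prime, `q = p ^ n`, `f(x, y)` ANY polynomial of degree at most `D`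
over the field of `q` elements with a monomial which contains both variables (for example `f = x y`), let `A`, `B` be ARBITRARY
subsets of this field with at least `p ^ δ` elements, and `g`, `h` ARBITRARY functions. Let `r₀ = (z, s)` be ANY point of
`Lie G_ℂ = ℂⁿ × ℂⁿ`. For all the pairs `(a, b)` in `A × B`, apart from a proportion of at most `p ^ (-ρ)`, and for ALL tuples `α` of
integers at a distance of at most `p ^ κ` from the tuple of the least residues of the `n` coordinates of `f(a, b) + g(a) + h(b)`: for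
all translates of `r₀` by logarithms of the points `((α_i, β_i), α_i)_i` of `G` every polynomial relation of bounded degree, over
number fields of bounded degree and of any height, between arbitrary constants `w_1, …, w_q`, the components `u_i`, `t_i` of the
translate `r`, the numbers `ζ(u_i)`, and the components of `exp_G(r)` is an identity in the numbers `u_i`, `ζ(u_i)`, `t_i`. In
bounded degree the transcendence degree of the components of `r` and `exp_G(r)` over the field of periods is thus at least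
`dim G`. How large `p` has to be does not depend on `r₀` and `w`. More generally, this holds for the values `F(a, b)` of all
vector functions of two variables with few coincidences (`RareV`), on arbitrary finite sets.

Since the sets and the functions `g` and `h` are arbitrary, the tuples have no arithmetic structure, and a tuple may be
taken by very many pairs. So the number of the exceptions (starting library) does not give the result directly. Proof: the
inequality of Cauchy and Schwarz; for most pairs `a, a'` the difference `F(a, b) - F(a', b)` is small for few `b`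
(`Pool.Agent.U449.BV`).
-/

set_option autoImplicit false

namespace Pool.Agent.Results.MP_4aec10_nt.MixedPolynomials

open scoped PeriodPair
open Finset
open Pool.Agent.U449.BV (RareV OnProductsU on_products_int_saving coordinates)
open Pool.Agent.Results.MP_4aec10_nt.SemiabelianTranslates (integers IsTranslate FreeOverImage)

/-- ALL tuples `α` of integers with `|α_i - x_i| ≤ W` for all `i` have the following property: all translates of `(z, s)` by
logarithms of the points `((α_i, β_i), α_i)` are free over their image and `w`. -/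
def Near (Λ : PeriodPair) (δ d : ℕ) {n q : ℕ} (w : Fin q → ℂ) (z s : Fin n → ℂ) (W : ℝ) (x : Fin n → ℝ) : Prop :=
  ∀ α : Fin n → ℤ, (∀ i, |(α i : ℝ) - x i| ≤ W) → ∀ u t : Fin n → ℂ,
    IsTranslate Λ z s (fun i => (α i : ℂ)) u t → FreeOverImage Λ δ d w u t

/-- the algebraic integers of degree one are the integers -/
lemma mem_integers_one {T : ℕ} {α : ℂ} (h : α ∈ integers 1 T) : ∃ t : ℤ, -(T : ℤ) ≤ t ∧ t ≤ T ∧ α = t := by
  obtain ⟨h1, h2, h3⟩ := h
  have h4 : IsIntegral ℚ α := h1.tower_top
  have h5 : (minpoly ℚ α).natDegree = 1 := le_antisymm h2 (minpoly.natDegree_pos h4)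
  have h6 : α ∈ (algebraMap ℚ ℂ).range := by
    rw [← minpoly.natDegree_eq_one_iff]
    exact h5
  obtain ⟨r, hr⟩ := h6
  have h7 : IsIntegral ℤ r := by
    rw [← hr] at h1
    exact (isIntegral_algebraMap_iff (algebraMap ℚ ℂ).injective).1 h1
  obtain ⟨t, ht⟩ := IsIntegrallyClosed.isIntegral_iff.1 h7
  have h8 : α = t := by
    rw [← hr, ← ht]
    simp
  have h9 := h3 α (minpoly.aeval ℚ α)
  rw [h8, Complex.norm_intCast] at h9
  have h10 : |t| ≤ (T : ℤ) := by exact_mod_cast h9
  exact ⟨t, (abs_le.1 h10).1, (abs_le.1 h10).2, h8⟩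

lemma integers_one {T : ℕ} {t : ℤ} (h : |t| ≤ (T : ℤ)) : (t : ℂ) ∈ integers 1 T := by
  have h0 : minpoly ℚ (t : ℂ) = Polynomial.X - Polynomial.C (t : ℚ) := by
    have := minpoly.eq_X_sub_C (A := ℚ) (B := ℂ) (t : ℚ)
    simpa using this
  refine ⟨isIntegral_algebraMap (R := ℤ) (A := ℂ) (x := t), ?_, ?_⟩
  · rw [h0, Polynomial.natDegree_X_sub_C]
  · intro z hz
    rw [h0] at hz
    simp only [map_sub, Polynomial.aeval_X, Polynomial.aeval_C, sub_eq_zero] at hz
    rw [hz]
    simp only [eq_ratCast, Rat.cast_intCast, Complex.norm_intCast]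
    exact_mod_cast h

lemma card_integers (T : ℕ) (hT : 1 ≤ T) : ((integers 1 T).ncard : ℝ) ≤ 3 * T := by
  classical
  have h1 : integers 1 T ⊆ ((Finset.Icc (-(T : ℤ)) T).image (fun t : ℤ => (t : ℂ)) : Finset ℂ) := by
    intro α hα
    obtain ⟨t, h1, h2, rfl⟩ := mem_integers_one hα
    rw [Finset.coe_image]
    exact ⟨t, by simp [h1, h2], rfl⟩
  have h2 := Set.ncard_le_ncard h1 (Finset.finite_toSet _)
  rw [Set.ncard_coe_finset] at h2
  have h3 := h2.trans Finset.card_image_le
  rw [Int.card_Icc] at h3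
  have h4 : ((T : ℤ) + 1 - -(T : ℤ)).toNat = 2 * T + 1 := by omega
  rw [h4] at h3
  have h5 : ((integers 1 T).ncard : ℝ) ≤ 2 * T + 1 := by exact_mod_cast h3
  have h6 : (1 : ℝ) ≤ T := by exact_mod_cast hT
  linarith

/-- **Theorem.** Let `Λ` be a lattice with rational invariants, `n ≥ 1` and `q`, `δ'`, `d'` natural numbers. There is `c > 0` such that
for all `κ ≥ 0` the property `Near`, with windows of length `X ^ κ`, holds, uniformly in `w_1, …, w_q ∈ ℂ` and in `z`, `s` in `ℂⁿ`, for
almost all values of vector functions of two variables with few coincidences, on arbitrary finite sets of at least `X ^ δ`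
elements, `n - c + n κ < δ ≤ n` (`OnProductsU`).
The tuples of the least residues modulo `p` of the coordinates (with respect to a basis over the field of `p` elements) of
`f(a, b) + g(a) + h(b)` in a field of `p ^ k` elements are such a function, with `X = p`, for all polynomials `f` over this
field with a monomial which contains both variables, arbitrary functions `g` and `h`, and arbitrary finite subsets. -/
theorem result :
    (∀ (Λ : PeriodPair) (a b : ℚ), Λ.g₂ = a → Λ.g₃ = b → ∀ n : ℕ, 1 ≤ n → ∀ q δ' d' : ℕ, ∃ c : ℝ, 0 < c ∧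
      ∀ κ : ℝ, 0 ≤ κ → OnProductsU n ((n : ℝ) - c + n * κ) κ
        (fun ω : (Fin q → ℂ) × (Fin n → ℂ) × (Fin n → ℂ) => Near Λ δ' d' ω.1 ω.2.1 ω.2.2)) ∧
    ∀ (p : ℕ) [Fact p.Prime] (k : ℕ) (K : Type) [Field K] [Algebra (ZMod p) K] (e : Module.Basis (Fin k) (ZMod p) K)
      (d : ℕ) (f : MvPolynomial (Fin 2) K), f.totalDegree ≤ d → (∃ m ∈ f.support, m 0 ≠ 0 ∧ m 1 ≠ 0) →
      ∀ (g h : K → K) (A B : Finset K),
        RareV d A B (fun a b i => (((e.repr (MvPolynomial.eval ![a, b] f + g a + h b) i).val : ℕ) : ℝ)) := by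
  refine ⟨fun Λ a b ha hb k hk q δ d => ?_, coordinates⟩
  obtain ⟨c, hc, C, hcount⟩ :=
    Pool.Agent.Results.MP_4aec10_nt.SemiabelianTranslates.result Λ a b ha hb k q 1 le_rfl δ d
  have hk1 : (0 : ℝ) < k := by exact_mod_cast hk
  refine ⟨min c k, lt_min hc hk1, fun κ hκ => ?_⟩
  refine (on_products_int_saving (k := k) (Ω := (Fin q → ℂ) × (Fin k → ℂ) × (Fin k → ℂ))
    (fun ω => {α : Fin k → ℤ | ¬ ∀ u t : Fin k → ℂ,
      IsTranslate Λ ω.2.1 ω.2.2 (fun i => (α i : ℂ)) u t → FreeOverImage Λ δ d ω.1 u t}) (c := c) (C := |C| * 3 ^ k) hκ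
    (fun ω X hX => ?_)).mono id (fun ω W x _ h' α hα => not_not.1 (h' α hα))
  obtain ⟨w, z, s⟩ := ω
  dsimp only
  have hX1 : (1 : ℝ) ≤ X := by exact_mod_cast hX
  have hX0 : (0 : ℝ) < X := by linarith
  obtain ⟨hI, h1⟩ := hcount w z s X hX
  have hfinα : {α : Fin k → ℂ | (∀ i, α i ∈ integers 1 X) ∧
      ¬ ∀ u t : Fin k → ℂ, IsTranslate Λ z s α u t → FreeOverImage Λ δ d w u t}.Finite := by
    apply (Set.Finite.pi' fun _ : Fin k => hI).subset
    intro α hα i
    exact hα.1 i
  have h2 : {v : Fin k → ℤ | (∀ i, |v i| ≤ (X : ℤ)) ∧ v ∈ {α : Fin k → ℤ | ¬ ∀ u t : Fin k → ℂ,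
      IsTranslate Λ z s (fun i => (α i : ℂ)) u t → FreeOverImage Λ δ d w u t}}.ncard ≤
      {α : Fin k → ℂ | (∀ i, α i ∈ integers 1 X) ∧
      ¬ ∀ u t : Fin k → ℂ, IsTranslate Λ z s α u t → FreeOverImage Λ δ d w u t}.ncard := by
    refine Set.ncard_le_ncard_of_injOn (fun v i => ((v i : ℤ) : ℂ)) ?_ ?_ hfinα
    · rintro v ⟨hv1, hv2⟩
      exact ⟨fun i => integers_one (hv1 i), hv2⟩
    · intro v _ v' _ h
      funext i
      have h0 : ((v i : ℤ) : ℂ) = ((v' i : ℤ) : ℂ) := congr_fun h i
      exact_mod_cast h0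
  have h3 : (((integers 1 X).ncard : ℝ)) ^ k ≤ (3 * X) ^ k := by
    gcongr
    exact card_integers X hX
  calc _ ≤ (({α : Fin k → ℂ | (∀ i, α i ∈ integers 1 X) ∧
      ¬ ∀ u t : Fin k → ℂ, IsTranslate Λ z s α u t → FreeOverImage Λ δ d w u t}.ncard : ℕ) : ℝ) := by
        exact_mod_cast h2
    _ ≤ C * (X : ℝ) ^ (-c) * ((integers 1 X).ncard : ℝ) ^ k := h1
    _ ≤ |C| * (X : ℝ) ^ (-c) * (3 * X) ^ k := by
        have := le_abs_self C
        gcongr
    _ = |C| * 3 ^ k * ((X : ℝ) ^ (k : ℝ) * (X : ℝ) ^ (-c)) := by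
        rw [Real.rpow_natCast]
        ring
    _ = |C| * 3 ^ k * (X : ℝ) ^ ((k : ℝ) - c) := by
        rw [← Real.rpow_add hX0, sub_eq_add_neg]

end Pool.Agent.Results.MP_4aec10_nt.MixedPolynomials
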