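import Pool.Agent.U405.RS.G5
import Pool.Agent.Results.MP_4aec10_nt.MultiplicativeValues

/-!
# Translates of every point of the Lie algebra of (E × G_m)^n by logarithms of values of multiplicative functions in thin sets

Let `F_1, …, F_k` be positive multiplicative functions of at most polynomial growth which for each `a ≥ 1` are injective at the
powers `p ^ a` of the large primes and at most `M p ^ a` there; for example Euler's function or the sum of the divisors. Let `E` be the elliptic curve `y² = 4 x³ - g₂ x - g₃` with rational `g₂`, `g₃`, and `G = (E × G_m)^n`. Let `r₀ = (z, s)` be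
ANY point of `Lie G_ℂ = ℂⁿ × ℂⁿ`, and translate it by the logarithms of the points `P = ((α_i, β_i), α_i)_i` of `G` with
`α_i = ± F_i(m_i)` (any signs). For almost all `m` in products of thin sets, and for all signs and all values of the
logarithms, every polynomial relation of bounded degree, over number fields of bounded degree and of any height, between
arbitrary constants `w_1, …, w_q` (for instance the periods of `G`), the components `u_i`, `t_i` of the translate `r`, the
numbers `ζ(u_i)`, and the components of `exp_G(r)` is an identity in the numbers `u_i`, `ζ(u_i)`, `t_i`.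

The starting theorem `MultiplicativeValues` of this problem treats the average over all tuples `m ∈ [1, N]^k`. Here each `m_i` runs
over a thin set: the shifted primes `p + a_i`, `p ≤ x`, for an arbitrary integer `a_i`, or an interval `(u, u + h]` with
`x^τ ≤ h ≤ x`, where `u ≤ x` and `1 - c / k < τ ≤ 1`; both kinds can be mixed. The tuples of values `(F_1(m_1), …, F_k(m_k))` are taken with large and
uneven multiplicities, so that the size of the exceptional set says nothing about them.

Proof. Own tool `Pool.Agent.U405.RS`. A thin set `S` has at most `B g^ω(n) |S| / n` multiples of `n` for every `n ≤ x^δ` (for the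
shifted primes by the Brun-Titchmarsh inequality of the library). Write `m_i = n_i w_i` with `n_i` composed of the primes
`≤ z = x^(1 / J)`, `J` a small multiple of `log log x`. By Rankin's method one has `n_i ≤ x^η` for most `m_i` in `S_i`; and `w_i` has at
most `J` prime factors and exponents `≤ J`, so that it is determined by `F_i(w_i)` up to `x^o(1)` possibilities. A slab of the
exceptional set is then covered by the fibres over one coordinate, and the saving `X^c` of the exceptional set is larger than the loss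
`x^(k (1 - τ))` from the short intervals. The bound for the exceptional tuples of integers is the starting theorem `SemiabelianTranslates`.
-/

set_option autoImplicit false

open scoped PeriodPair

namespace Pool.Agent.Results.MP_4aec10_nt.ThinTuples

open Pool.Agent.U405.RS
open Pool.Agent.Results.MP_4aec10_nt.SemiabelianTranslates (integers IsTranslate FreeOverImage)
open Pool.Agent.Results.MP_4aec10_nt.MultiplicativeValues (integers_one card_integers)

/-- **Translates of every point of `Lie (E × G_m)^n` over thin sets.** Let `Λ` be a lattice with rational invariants, `k ≥ 1` and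
`q`, `δ`, `d` natural numbers. There is `c > 0` such that for all `F_1, …, F_k` in the class `PM`, all `U` and, uniformly, all
`w ∈ ℂ^q`, `z, s ∈ ℂ^k`, in the sense of `ThinAll c F U`
(with a saving of `(log x)^U`, uniformly in the parameter, for almost all `m` in all products `S_1 × ⋯ × S_k` of sets of shifted
primes `p + a_i`, `p ≤ x`, and intervals `(u, u + h]`, `u ≤ x`, `x^τ ≤ h ≤ x`, whenever `0 < τ ≤ 1`, `k τ > k - c`)
all `F_i(m_i)` are at least `2` and for ALL signs all translates of `(z, s)` by logarithms of the points `((α_i, β_i), α_i)`,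
`α_i = ± F_i(m_i)`, are free over their image and `w`, for relations of degree `≤ δ` over number fields of degree `≤ d`. Euler's
function, the sum of the divisors and the identity are in the class. -/
theorem result :
    (∀ (Λ : PeriodPair) (a b : ℚ), Λ.g₂ = a → Λ.g₃ = b → ∀ k q δ d : ℕ, 1 ≤ k → ∃ c : ℝ, 0 < c ∧
      ∀ F : Fin k → ℕ → ℕ, (∀ i, PM (F i)) → ∀ U : ℕ,
        ThinAll c F U (fun (p : (Fin q → ℂ) × (Fin k → ℂ) × (Fin k → ℂ)) (v : Fin k → ℕ) => (∀ i, 2 ≤ v i) ∧
          ∀ α : Fin k → ℤ, (∀ i, |α i| = v i) → ∀ u t : Fin k → ℂ,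
            IsTranslate Λ p.2.1 p.2.2 (fun i => (α i : ℂ)) u t → FreeOverImage Λ δ d p.1 u t)) ∧
    (PM Nat.totient ∧ PM (fun m => ∑ d ∈ m.divisors, d) ∧ PM (fun m => m)) := by
  classical
  refine ⟨fun Λ a b ha hb k q δ d hk => ?_, examplesT⟩
  obtain ⟨c, hc, C, hcount⟩ :=
    Pool.Agent.Results.MP_4aec10_nt.SemiabelianTranslates.result Λ a b ha hb k q 1 le_rfl δ d
  refine ⟨c, hc, fun F hF U => thinAll_two hk hF hc (|C| * 3 ^ k)
    (fun (p : (Fin q → ℂ) × (Fin k → ℂ) × (Fin k → ℂ)) (v : Fin k → ℕ) =>
      ∀ α : Fin k → ℤ, (∀ i, |α i| = v i) → ∀ u t : Fin k → ℂ,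
        IsTranslate Λ p.2.1 p.2.2 (fun i => (α i : ℂ)) u t → FreeOverImage Λ δ d p.1 u t) (fun p X hX => ?_) U⟩
  obtain ⟨w, z, s⟩ := p
  dsimp only
  obtain ⟨Bad, hBad⟩ : ∃ Bad : (Fin k → ℤ) → Prop, Bad = fun α => ¬ ∀ u t : Fin k → ℂ,
      IsTranslate Λ z s (fun i => (α i : ℂ)) u t → FreeOverImage Λ δ d w u t := ⟨_, rfl⟩
  have hX1 : (1 : ℝ) ≤ X := by exact_mod_cast hX
  have hX0 : (0 : ℝ) < X := by linarith
  obtain ⟨hI, h1⟩ := hcount w z s X hX
  have hex : ∀ v : Fin k → ℕ, (¬ ∀ α : Fin k → ℤ, (∀ i, |α i| = v i) → ∀ u t : Fin k → ℂ,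
      IsTranslate Λ z s (fun i => (α i : ℂ)) u t → FreeOverImage Λ δ d w u t) →
      ∃ α : Fin k → ℤ, (∀ i, |α i| = v i) ∧ Bad α := by
    intro v hv
    rw [hBad]
    by_contra hcon
    apply hv
    intro α hα
    by_contra hE
    exact hcon ⟨α, hα, hE⟩
  choose! g hg1 hg2 using hex
  have hfinα : {α : Fin k → ℂ | (∀ i, α i ∈ integers 1 X) ∧
      ¬ ∀ u t : Fin k → ℂ, IsTranslate Λ z s α u t → FreeOverImage Λ δ d w u t}.Finite := by
    apply (Set.Finite.pi' fun _ : Fin k => hI).subset
    intro α hα i
    exact hα.1 i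
  have h2 : {v : Fin k → ℕ | (∀ i, 2 ≤ v i ∧ v i ≤ X) ∧ ¬ ∀ α : Fin k → ℤ, (∀ i, |α i| = v i) → ∀ u t : Fin k → ℂ,
      IsTranslate Λ z s (fun i => (α i : ℂ)) u t → FreeOverImage Λ δ d w u t}.ncard ≤
      {α : Fin k → ℂ | (∀ i, α i ∈ integers 1 X) ∧
      ¬ ∀ u t : Fin k → ℂ, IsTranslate Λ z s α u t → FreeOverImage Λ δ d w u t}.ncard := by
    refine Set.ncard_le_ncard_of_injOn (fun v i => ((g v i : ℤ) : ℂ)) ?_ ?_ hfinα
    · rintro v ⟨hv1, hv2⟩
      refine ⟨fun i => integers_one ?_, ?_⟩
      · rw [hg1 v hv2 i]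
        exact_mod_cast (hv1 i).2
      · have := hg2 v hv2
        rw [hBad] at this
        exact this
    · intro v hv v' hv' h
      funext i
      have h3 : g v i = g v' i := by
        have h0 : ((g v i : ℤ) : ℂ) = ((g v' i : ℤ) : ℂ) := congr_fun h i
        exact_mod_cast h0
      have h4 := hg1 v hv.2 i
      have h5 := hg1 v' hv'.2 i
      rw [h3, h5] at h4
      exact_mod_cast h4.symm
  have h3 : (((integers 1 X).ncard : ℝ)) ^ k ≤ (3 * X) ^ k := by
    gcongr
    exact card_integers X hX
  calc _ ≤ (({α : Fin k → ℂ | (∀ i, α i ∈ integers 1 X) ∧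
      ¬ ∀ u t : Fin k → ℂ, IsTranslate Λ z s α u t → FreeOverImage Λ δ d w u t}.ncard : ℕ) : ℝ) := by
        exact_mod_cast h2
    _ ≤ C * (X : ℝ) ^ (-c) * ((integers 1 X).ncard : ℝ) ^ k := h1
    _ ≤ |C| * (X : ℝ) ^ (-c) * (3 * X) ^ k := by
        have := le_abs_self C
        gcongr
    _ = |C| * 3 ^ k * ((X : ℝ) ^ (k : ℝ) * (X : ℝ) ^ (-c)) := by
        rw [Real.rpow_natCast]
        ring
    _ = |C| * 3 ^ k * (X : ℝ) ^ ((k : ℝ) - c) := by
        rw [← Real.rpow_add hX0, sub_eq_add_neg]

end Pool.Agent.Results.MP_4aec10_nt.ThinTuples
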