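import Pool.Agent.U534.EllJ

/-!
# The weak relative semi-abelian conjecture: one infinite set of algebraic points, all elliptic curves, base points from any
countable field

Let `Λ_0, Λ_1, …` be any sequence of lattices with rational invariants `g₂`, `g₃` (for instance every elliptic curve over
`ℚ` may occur infinitely often), `E_0, E_1, …` the elliptic curves, and let `W_0, W_1, …` be any finite dimensional
`ℚ`-vector spaces of complex numbers, for instance an increasing sequence which exhausts a countable algebraically closed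
field `F` (containing the periods, quasi-periods of all `E_j`, `π`, …). Let `Ξ_0, Ξ_1, …` be sets of complex numbers such
that `Ξ_j` contains algebraic numbers `ξ` of arbitrarily large absolute value which are roots of integral polynomials of
degree at most `m_j` with coefficients at most `|ξ|^(A_j)`; the degrees `m_j` and the exponents `A_j` may grow.

We construct ONE infinite set `𝒯 = T_0 ∪ T_1 ∪ ⋯` of algebraic numbers: `T_j` consists of the numbers `ξ + 1, …, ξ + H` for
some `ξ ∈ Ξ_j` and some `H` with the exception of a proportion of at most `1 / (j + 1)`. For `t` in `T_j` we consider all the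
numbers

  `u = z + b p`, `η = z' + b' ζ(p)`, `v = z'' + b'' l`, where `℘_j(p) = t`, `exp(l) = t`, `z, z', z'' ∈ W_j`, `b, b', b'' ∈ ℚ^*`:

`(u, v)` is the translate of an ARBITRARY point `(z, z'')` with coordinates in `W_j` of the Lie algebra of `E_j × G_m` by
rational multiples of the logarithms of an algebraic point, along any paths.

* For every countable set `F` of complex numbers there is such a set `𝒯` with the following property. For every `n` and every
  nonzero polynomial `P` in `3n` variables with coefficients in `F`, of any degree, there is `k` such that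
  `P(u_i, η_i, v_i) ≠ 0` for all numbers `u_i`, `η_i`, `v_i` as above over any distinct elements `t_1, …, t_n` of
  `T_k ∪ T_(k + 1) ∪ ⋯`. Here `k` depends on `P` only; the base points may change with the points `t_i` and their heights
  may grow arbitrarily fast. So for the semi-abelian varieties `G = ∏ E_(j_i) × G_m^n` and the points `r = (u_i, v_i)_i` of
  `Lie G` the components of `r` satisfy no relation `P = 0`: if `F` is an algebraically closed field which contains the
  periods and the coordinates of `exp_G` of the base points, then the components of `exp_G(r)` are in `F`, and in the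
  limit the transcendence degree of the conjecture is as large as possible, `dim G ≥ d(exp_G(r))`.
* Given finite dimensional `V_0 ⊆ V_1 ⊆ ⋯` and degrees `δ_0 ≤ δ_1 ≤ ⋯` there is such a set `𝒯` such that for all choices of
  numbers `u_t, η_t, v_t` as above, for all `t` in `𝒯`, and for all `k` the numbers over `T_k ∪ T_(k + 1) ∪ ⋯` satisfy no
  nontrivial polynomial relation in any number of variables, of degree at most `δ_k` in each variable, with coefficients in
  `K V_k`, `K` any number field of degree at most `δ_k`.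

The library theorem (`Pool.Agent.Y916.Sl.windowHt`, used for `MP_4aec10_nt.TranslatesInWindows`) treats one elliptic curve,
one base point and `n` distinct elements of one short window.
-/

set_option autoImplicit false

open scoped PeriodPair

namespace Pool.Agent.Results.MP_4aec10_nt.TranslatesByGrowingSpaces

/-- The Weierstrass zeta function `ζ(z) = ∑ (1/(z-l) + 1/l + z/l²)`, the sum over the lattice (the summand of `l = 0` is
`1/z`, since `1/0 = 0` in Lean). -/
noncomputable def zeta (L : PeriodPair) (z : ℂ) : ℂ := ∑' l : L.lattice, (1 / (z - l) + 1 / l + z / l ^ 2)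

/-- the three numbers `p`, `ζ(p)`, `l` -/
noncomputable def numbers (L : PeriodPair) (p l : ℂ) : Fin 3 → ℂ := ![p, zeta L p, l]

/-- `Ξ j` contains numbers `ξ` of arbitrarily large absolute value which are roots of nonzero integral polynomials of degree
at most `m j` with coefficients at most `|ξ| ^ (A j)`. -/
def Rich (m A : ℕ → ℕ) (Ξ : ℕ → Set ℂ) : Prop :=
  ∀ j N : ℕ, ∃ ξ ∈ Ξ j, (N : ℝ) ≤ ‖ξ‖ ∧
    ∃ p : Polynomial ℤ, p ≠ 0 ∧ p.natDegree ≤ m j ∧ (∀ i, |(p.coeff i : ℝ)| ≤ ‖ξ‖ ^ A j) ∧ Polynomial.aeval ξ p = 0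

/-- The finite sets `T j` are disjoint; `T j` contains the points `ξ + 1, …, ξ + H` for some `ξ ∈ Ξ j` and some `H`, up to a
proportion of at most `1 / (j + 1)`, it has at least `j` elements and they have absolute value at least `j + 1`. -/
def AlmostFull (Ξ : ℕ → Set ℂ) (T : ℕ → Finset ℂ) : Prop :=
  (∀ i j, i ≠ j → Disjoint (T i) (T j)) ∧ ∀ j : ℕ, ∃ ξ ∈ Ξ j, ∃ H : ℕ,
    (∀ t ∈ T j, (j : ℝ) + 1 ≤ ‖t‖ ∧ ∃ g : ℕ, 1 ≤ g ∧ g ≤ H ∧ t = ξ + g) ∧ j ≤ (T j).card ∧ (j + 1) * (H - (T j).card) ≤ H

/-- `y` consists of nonzero rational multiples of `p`, `ζ(p)`, `l` plus elements of `W`, where `℘(p) = exp(l) = t`. -/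
def Translate (L : PeriodPair) (W : Submodule ℚ ℂ) (t : ℂ) (y : Fin 3 → ℂ) : Prop :=
  ∃ p l : ℂ, p ∉ L.lattice ∧ ℘[L] p = t ∧ Complex.exp l = t ∧
    ∀ s, ∃ b : ℚ, b ≠ 0 ∧ y s - b * numbers L p l s ∈ W

/-- `y` chooses translates above the elements of the sets `T j`, for the `j`-th curve and the `j`-th space. -/
def Above (L : ℕ → PeriodPair) (W : ℕ → Submodule ℚ ℂ) (T : ℕ → Finset ℂ) (y : ℂ → Fin 3 → ℂ) : Prop :=
  ∀ j, ∀ t ∈ T j, Translate (L j) (W j) t (y t)

/-- **Main result.** -/
theorem result (L : ℕ → PeriodPair) (a b : ℕ → ℚ) (ha : ∀ j, (L j).g₂ = a j) (hb : ∀ j, (L j).g₃ = b j)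
    (W : ℕ → Submodule ℚ ℂ) (hW : ∀ j, Module.Finite ℚ (W j)) (m A : ℕ → ℕ) (Ξ : ℕ → Set ℂ) (hΞ : Rich m A Ξ) :
    -- all polynomials over a countable set of constants
    (∀ F : Set ℂ, F.Countable → ∃ T : ℕ → Finset ℂ, AlmostFull Ξ T ∧
      ∀ (n : ℕ) (P : MvPolynomial (Fin n × Fin 3) ℂ), P ≠ 0 → (∀ s, P.coeff s ∈ F) → ∃ k : ℕ,
        ∀ y : ℂ → Fin 3 → ℂ, Above L W T y → ∀ t : Fin n → ℂ, Function.Injective t → (∀ i, ∃ j ≥ k, t i ∈ T j) →
          MvPolynomial.eval (fun v => y (t v.1) v.2) P ≠ 0) ∧
    -- given degrees and constants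
    ∀ V : ℕ → Submodule ℚ ℂ, (∀ j, Module.Finite ℚ (V j)) → Monotone V → ∀ δ : ℕ → ℕ, Monotone δ →
      ∃ T : ℕ → Finset ℂ, AlmostFull Ξ T ∧ ∀ y : ℂ → Fin 3 → ℂ, Above L W T y →
      ∀ (k : ℕ) (K : IntermediateField ℚ ℂ), FiniteDimensional ℚ K → Module.finrank ℚ K ≤ δ k →
      ∀ P : MvPolynomial (ℂ × Fin 3) ℂ, P ≠ 0 → (∀ v ∈ P.vars, ∃ j ≥ k, v.1 ∈ T j) →
        (∀ v, P.degreeOf v ≤ δ k) → (∀ s, P.coeff s ∈ Submodule.span K (V k : Set ℂ)) →
        MvPolynomial.eval (fun v => y v.1 v.2) P ≠ 0 :=
  ⟨fun F hF => Pool.Agent.U534.Tens.countable_formJ (G := AlmostFull Ξ)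
      (fun V hVf hV δ hδ => Pool.Agent.U534.Tens.ellJ L a b ha hb hΞ W hW V hVf hV δ hδ) F hF,
    fun V hVf hV δ hδ => Pool.Agent.U534.Tens.ellJ L a b ha hb hΞ W hW V hVf hV δ hδ⟩

end Pool.Agent.Results.MP_4aec10_nt.TranslatesByGrowingSpaces
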